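import Pool.Agent.K6.H54.QR

/-!
# MP_78fef3_co: quasiregular subgraphs of graphs with linearly many edges

Sauer's question has a negative answer: for every `k ≥ 2` and every `C` there are graphs with
arbitrarily many edges per vertex and without a `(k, C)`-quasiregular subgraph. For `k = 1` the
property asked for holds exactly for `C > 2`.

The graphs are the incidence graphs of random systems of functions `φ i : A → B i`, with `|B i|`
smaller than `|A|` by a factor which grows very fast with `i` (the construction of Pyber, Rödl and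
Szemerédi of dense graphs without 3-regular subgraphs, with faster growing factors).
-/

set_option autoImplicit false

namespace Pool.Agent.Results.MP_78fef3_co.NoQuasiregular

open Pool.Agent.K6.H54.QR

/-- The subgraph `H` is `(k, C)`-quasiregular: it has at least one vertex, and the degree in `H`
of each of its vertices `x` satisfies `k < d_H(x) < C k`. -/
def IsQuasiregular {V : Type} {G : SimpleGraph V} (H : G.Subgraph) (k : ℕ) (C : ℝ) : Prop :=
  H.verts.Nonempty ∧ ∀ x ∈ H.verts,
    (k : ℝ) < ((H.neighborSet x).ncard : ℝ) ∧ ((H.neighborSet x).ncard : ℝ) < C * k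

/-- There is a number `F` such that every finite graph with `n ≥ 1` vertices and at least `F n`
edges contains a `(k, C)`-quasiregular subgraph. -/
def LinearlyManyEdgesForce (k : ℕ) (C : ℝ) : Prop :=
  ∃ F : ℝ, ∀ (V : Type) [Fintype V] [Nonempty V] (G : SimpleGraph V),
    F * (Fintype.card V : ℝ) ≤ (G.edgeSet.ncard : ℝ) → ∃ H : G.Subgraph, IsQuasiregular H k C

lemma not_force (k : ℕ) (C : ℝ) (h : 2 ≤ k ∨ C ≤ 2) (hk : 1 ≤ k) :
    ¬ LinearlyManyEdgesForce k C := by
  rintro ⟨F, hF⟩
  obtain ⟨m, hm⟩ := exists_nat_ge (2 * F)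
  obtain ⟨D, hD⟩ := exists_nat_ge (C * k)
  obtain ⟨V, i1, i2, G, hE, hG⟩ := core D m
  have h1 : F * (Fintype.card V : ℝ) ≤ (G.edgeSet.ncard : ℝ) := by
    have h2 : (m : ℝ) * (Fintype.card V : ℝ) ≤ 2 * (G.edgeSet.ncard : ℝ) := by exact_mod_cast hE
    have h3 : (0 : ℝ) ≤ (Fintype.card V : ℝ) := by positivity
    nlinarith
  obtain ⟨H, hne, hH⟩ := hF V G h1
  refine hG H hne fun x hx => ?_
  obtain ⟨h2, h3⟩ := hH x hx
  have h4 : k < (H.neighborSet x).ncard := by exact_mod_cast h2
  refine ⟨?_, ?_⟩
  · rcases h with h | h
    · omega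
    · -- here `k < d < 2 k` with `C ≤ 2`
      have h5 : ((H.neighborSet x).ncard : ℝ) < 2 * k := by
        have : (0 : ℝ) ≤ k := by positivity
        nlinarith
      have h6 : (H.neighborSet x).ncard < 2 * k := by exact_mod_cast h5
      omega
  · have h5 : ((H.neighborSet x).ncard : ℝ) ≤ D := h3.le.trans hD
    exact_mod_cast h5

lemma force_one (C : ℝ) (hC : 2 < C) : LinearlyManyEdgesForce 1 C := by
  classical
  refine ⟨1, fun V _ _ G hE => ?_⟩
  have hcyc : ¬ G.IsAcyclic := by
    intro hac
    obtain ⟨T, hGT, -, hT⟩ := (SimpleGraph.connected_top (V := V)).exists_isTree_le_of_le_of_isAcyclic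
      le_top hac
    have h1 := hT.card_edgeFinset
    have h2 : G.edgeSet.ncard ≤ T.edgeSet.ncard :=
      Set.ncard_le_ncard (SimpleGraph.edgeSet_mono hGT) (Set.toFinite _)
    have h3 : T.edgeSet.ncard = T.edgeFinset.card := by
      rw [← SimpleGraph.coe_edgeFinset, Set.ncard_coe_finset]
    have h4 : Fintype.card V ≤ G.edgeSet.ncard := by
      rw [one_mul] at hE
      exact_mod_cast hE
    omega
  unfold SimpleGraph.IsAcyclic at hcyc
  push Not at hcyc
  obtain ⟨v, c, hc⟩ := hcyc
  refine ⟨c.toSubgraph, ⟨v, by simp⟩, ?_⟩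
  intro x hx
  have h1 : (c.toSubgraph.neighborSet x).ncard = 2 := by
    apply hc.ncard_neighborSet_toSubgraph_eq_two
    simpa using hx
  rw [h1]
  constructor
  · norm_num
  · push_cast
    linarith

/-- **Answer to Sauer's question.** There is no constant `C` such that for every `k ≥ 1` linearly
many edges force a `(k, C)`-quasiregular subgraph. More precisely, for `k ≥ 1` and real `C`,
linearly many edges force a `(k, C)`-quasiregular subgraph if and only if `k = 1` and `C > 2`; so
for every `k ≥ 2`, every `C` and every `F` there is a graph with `n ≥ 1` vertices and at least `F n`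
edges in which no subgraph has all its degrees strictly between `k` and `C k`. -/
theorem result :
    (¬ ∃ C : ℝ, ∀ k : ℕ, 1 ≤ k → LinearlyManyEdgesForce k C) ∧
    (∀ (k : ℕ) (C : ℝ), 1 ≤ k → (LinearlyManyEdgesForce k C ↔ k = 1 ∧ 2 < C)) ∧
    (∀ (k : ℕ) (C F : ℝ), 2 ≤ k → ∃ (n : ℕ) (G : SimpleGraph (Fin n)), 1 ≤ n ∧
      F * n ≤ (G.edgeSet.ncard : ℝ) ∧ ∀ H : G.Subgraph, ¬ IsQuasiregular H k C) := by
  refine ⟨?_, ?_, ?_⟩
  · rintro ⟨C, hC⟩
    exact not_force 2 C (Or.inl le_rfl) (by norm_num) (hC 2 (by norm_num))
  · intro k C hk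
    constructor
    · intro h
      by_contra hcon
      refine not_force k C ?_ hk h
      by_contra h2
      push Not at h2
      exact hcon ⟨by omega, h2.2⟩
    · rintro ⟨rfl, hC⟩
      exact force_one C hC
  · intro k C F hk
    have h := not_force k C (Or.inl hk) (by omega)
    unfold LinearlyManyEdgesForce at h
    push Not at h
    obtain ⟨V, i1, i2, G, hE, hG⟩ := h F
    let e : G ≃g G.overFin rfl := G.overFinIso rfl
    refine ⟨Fintype.card V, G.overFin rfl, Fintype.card_pos, ?_, ?_⟩
    · refine hE.trans ?_
      have h1 : G.edgeSet.ncard = (G.overFin rfl).edgeSet.ncard := by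
        rw [← Nat.card_coe_set_eq, ← Nat.card_coe_set_eq]
        exact Nat.card_congr e.mapEdgeSet
      rw [h1]
    · intro H hH
      apply hG (H.comap e.toHom)
      obtain ⟨⟨y, hy⟩, hdeg⟩ := hH
      have hnb : ∀ x : V, ((H.comap e.toHom).neighborSet x).ncard =
          (H.neighborSet (e x)).ncard := by
        intro x
        have : H.neighborSet (e x) = e '' ((H.comap e.toHom).neighborSet x) := by
          ext z
          constructor
          · intro hz
            refine ⟨e.symm z, ?_, by simp⟩
            have hz' : H.Adj (e x) z := hz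
            show (H.comap e.toHom).Adj x (e.symm z)
            simp only [SimpleGraph.Subgraph.comap_adj]
            refine ⟨?_, ?_⟩
            · have := hz'.adj_sub
              rw [← e.map_adj_iff]
              simpa using this
            · have h5 : e.toHom (e.symm z) = z := e.apply_symm_apply z
              rw [h5]
              exact hz'
          · rintro ⟨w, hw, rfl⟩
            have hw' : (H.comap e.toHom).Adj x w := hw
            simp only [SimpleGraph.Subgraph.comap_adj] at hw'
            exact hw'.2
        rw [this, Set.ncard_image_of_injective _ e.injective]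
      refine ⟨⟨e.symm y, ?_⟩, ?_⟩
      · show e (e.symm y) ∈ H.verts
        simpa using hy
      · intro x hx
        rw [hnb x]
        exact hdeg (e x) hx

end Pool.Agent.Results.MP_78fef3_co.NoQuasiregular
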